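import Mathlib

set_option autoImplicit false

namespace Pool.Agent.H.MP_94b191_gt

open Set Topology Real

def AA : Set ℝ := insert 0 (range fun j : ℕ => 1 / ((j : ℝ) + 1))

lemma AA_compact : IsCompact AA :=
  tendsto_one_div_add_atTop_nhds_zero_nat.isCompact_insert_range

instance : CompactSpace AA := isCompact_iff_compactSpace.1 AA_compact

lemma AA_nonneg (d : AA) : 0 ≤ d.1 := by
  rcases d.2 with h | ⟨j, h⟩
  · rw [h]
  · rw [← h]; positivity

abbrev CC := AA × unitInterval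

noncomputable def rr (t : ℝ) : ℝ := min (2 * t) 1
noncomputable def ss (t : ℝ) : ℝ := max (2 * t - 1) 0

@[fun_prop] lemma rr_cont : Continuous rr := by unfold rr; fun_prop
@[fun_prop] lemma ss_cont : Continuous ss := by unfold ss; fun_prop

lemma ss_nonneg (t : ℝ) : 0 ≤ ss t := le_max_right _ _

noncomputable def FF (c : CC) : ℝ × ℝ × ℝ :=
  (rr c.2 * cos (2 * π * ss c.2), rr c.2 * c.1.1 / (1 + c.1.1 * ss c.2), rr c.2)

lemma FF_cont : Continuous FF := by
  unfold FF
  refine Continuous.prodMk (by fun_prop) (Continuous.prodMk ?_ (by fun_prop))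
  refine Continuous.div (by fun_prop) (by fun_prop) fun c => ?_
  have := AA_nonneg c.1
  have := ss_nonneg c.2
  positivity

abbrev XX : Type := range FF

instance : CompactSpace XX := isCompact_iff_compactSpace.1 (isCompact_range FF_cont)

noncomputable def pt (c : CC) : XX := ⟨FF c, c, rfl⟩

lemma pt_cont : Continuous pt := FF_cont.subtype_mk _

noncomputable def aa : XX := pt (⟨0, Or.inl rfl⟩, 0)

lemma aa_val : aa.1 = (0, 0, 0) := by simp [aa, pt, FF, rr]

noncomputable def gam (c : CC) : Path aa (pt c) where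
  toFun t := pt (c.1, t * c.2)
  continuous_toFun := pt_cont.comp (by fun_prop)
  source' := by apply Subtype.ext; simp [aa, pt, FF, rr]
  target' := by simp

lemma gam_cont : Continuous (fun p : CC × unitInterval => gam p.1 p.2) :=
  pt_cont.comp (by fun_prop)

instance : PathConnectedSpace XX where
  nonempty := ⟨aa⟩
  joined := by
    rintro ⟨_, c, rfl⟩ ⟨_, d, rfl⟩
    exact ⟨(gam c).symm.trans (gam d)⟩

lemma uniform_of_compact {Y C : Type} [MetricSpace Y] [MetricSpace C] [CompactSpace C] {x y : Y}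
    (Φ : C → Path x y) (h : Continuous fun p : C × unitInterval => Φ p.1 p.2) (ε : ℝ)
    (hε : ε > 0) : ∃ n : ℕ, ∀ p ∈ range Φ, ∃ t : Fin (n + 1) → unitInterval,
      t 0 = 0 ∧ t (Fin.last n) = 1 ∧ StrictMono t ∧
      ∀ i : Fin n, Metric.diam (⇑p '' Set.Icc (t i.castSucc) (t i.succ)) ≤ ε := by
  obtain ⟨δ, hδ, hu⟩ := Metric.uniformContinuous_iff.1
    (CompactSpace.uniformContinuous_of_continuous h) ε hε
  obtain ⟨m, hm⟩ := exists_nat_one_div_lt hδ
  have hpos : (0 : ℝ) < (m : ℝ) + 1 := by positivity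
  refine ⟨m + 1, ?_⟩
  rintro _ ⟨c, rfl⟩
  refine ⟨fun i => ⟨(i : ℝ) / ((m : ℝ) + 1), by positivity, ?_⟩, ?_, ?_, ?_, ?_⟩
  · rw [div_le_one hpos]
    have := i.2
    exact_mod_cast Nat.lt_succ_iff.1 this
  · apply Subtype.ext; simp
  · apply Subtype.ext
    simp only [Fin.val_last, Icc.coe_one]
    push_cast
    exact div_self hpos.ne'
  · intro i j hij
    rw [← Subtype.coe_lt_coe]
    simp only
    gcongr
    exact_mod_cast hij
  · intro i
    refine Metric.diam_le_of_forall_dist_le hε.le ?_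
    rintro _ ⟨s, hs, rfl⟩ _ ⟨t, ht, rfl⟩
    refine (hu (a := (c, s)) (b := (c, t)) ?_).le
    have hs1 : ((i : ℕ) : ℝ) / ((m : ℝ) + 1) ≤ s := by simpa [← Subtype.coe_le_coe] using hs.1
    have hs2 : (s : ℝ) ≤ ((i : ℕ) + 1 : ℝ) / ((m : ℝ) + 1) := by
      simpa [← Subtype.coe_le_coe] using hs.2
    have ht1 : ((i : ℕ) : ℝ) / ((m : ℝ) + 1) ≤ t := by simpa [← Subtype.coe_le_coe] using ht.1
    have ht2 : (t : ℝ) ≤ ((i : ℕ) + 1 : ℝ) / ((m : ℝ) + 1) := by
      simpa [← Subtype.coe_le_coe] using ht.2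
    rw [add_div] at hs2 ht2
    rw [Prod.dist_eq, dist_self, Subtype.dist_eq, Real.dist_eq]
    refine max_lt hδ (abs_lt.2 ⟨by linarith, by linarith⟩)

lemma upc (a b : XX) : ∃ P : Set (Path a b),
    (∀ ε : ℝ, ε > 0 → ∃ n : ℕ, ∀ p ∈ P, ∃ t : Fin (n + 1) → unitInterval,
      t 0 = 0 ∧ t (Fin.last n) = 1 ∧ StrictMono t ∧
      ∀ i : Fin n, Metric.diam (⇑p '' Set.Icc (t i.castSucc) (t i.succ)) ≤ ε) ∧
    (⋃ p ∈ P, Set.range ⇑p) = Set.univ := by
  obtain ⟨_, c1, rfl⟩ := a
  obtain ⟨_, c2, rfl⟩ := b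
  let Φ : CC → Path (pt c1) (pt c2) := fun c =>
    ((gam c1).symm.trans (gam c)).trans ((gam c).symm.trans (gam c2))
  refine ⟨range Φ, uniform_of_compact Φ ?_, ?_⟩
  · refine Path.trans_continuous_family (fun c => (gam c1).symm.trans (gam c)) ?_
      (fun c => (gam c).symm.trans (gam c2)) ?_
    · exact Path.trans_continuous_family (fun _ => (gam c1).symm)
        ((gam c1).symm.continuous.comp continuous_snd) gam gam_cont
    · exact Path.trans_continuous_family (fun c => (gam c).symm)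
        (Path.symm_continuous_family gam gam_cont) (fun _ => gam c2)
        ((gam c2).continuous.comp continuous_snd)
  · refine eq_univ_of_forall ?_
    rintro ⟨_, c, rfl⟩
    refine mem_iUnion₂.2 ⟨Φ c, ⟨c, rfl⟩, ?_⟩
    show pt c ∈ range (Φ c)
    simp only [Φ]
    rw [Path.trans_range, Path.trans_range]
    exact Or.inl (Or.inr (show pt c ∈ range (gam c) from ⟨1, (gam c).target⟩))

lemma mem_X (r s : ℝ) (j : ℕ) (hr : 0 ≤ r) (hr' : r ≤ 1) (hs : 0 ≤ s) (hs' : s ≤ 1)
    (h : r = 1 ∨ s = 0) :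
    ((r * cos (2 * π * (j + 1 + s)), r / (j + 1 + s), r) : ℝ × ℝ × ℝ) ∈ range FF := by
  refine ⟨(⟨1 / ((j : ℝ) + 1), Or.inr ⟨j, rfl⟩⟩, ⟨(r + s) / 2, by linarith, by linarith⟩), ?_⟩
  have h1 : rr ((r + s) / 2) = r := by
    unfold rr
    rcases h with rfl | rfl
    · exact min_eq_right (by linarith)
    · rw [min_eq_left (by linarith)]; ring
  have h2 : ss ((r + s) / 2) = s := by
    unfold ss
    rcases h with rfl | rfl
    · rw [max_eq_left (by linarith)]; ring
    · exact max_eq_right (by linarith)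
  simp only [FF, h1, h2]
  congr 1
  · congr 1
    rw [show 2 * π * ((j : ℝ) + 1 + s) = 2 * π * s + ((j + 1 : ℕ) : ℝ) * (2 * π) by
      push_cast; ring, cos_add_nat_mul_two_pi]
  · congr 1
    field_simp

lemma mem_X' (r σ : ℝ) (hr : 0 ≤ r) (hr' : r ≤ 1) (hσ : 1 ≤ σ)
    (h : r = 1 ∨ ∃ n : ℕ, σ = n) :
    ((r * cos (2 * π * σ), r / σ, r) : ℝ × ℝ × ℝ) ∈ range FF := by
  have h1 : 1 ≤ ⌊σ⌋₊ := Nat.le_floor (by simpa using hσ)
  obtain ⟨j, hj⟩ : ∃ j, ⌊σ⌋₊ = j + 1 := ⟨⌊σ⌋₊ - 1, by omega⟩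
  have h2 := Nat.floor_le (a := σ) (by linarith)
  have h3 := Nat.lt_floor_add_one σ
  have h4 : r = 1 ∨ σ - (j + 1) = 0 := by
    refine h.imp id ?_
    rintro ⟨n, rfl⟩
    rw [Nat.floor_natCast] at hj
    rw [hj]; push_cast; ring
  rw [hj] at h2 h3
  push_cast at h2 h3
  have := mem_X r (σ - (j + 1)) j hr hr' (by linarith) (by linarith) h4
  rwa [show (j : ℝ) + 1 + (σ - (j + 1)) = σ by ring] at this

noncomputable def bb : XX := ⟨(1, 1, 1), by
  have := mem_X' 1 1 zero_le_one le_rfl le_rfl (Or.inl rfl)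
  simpa using this⟩

noncomputable def sig (N : ℕ) (t : ℝ) : ℝ := (N + 2 : ℝ) - (N + 1) * ss t

lemma sig_ge (N : ℕ) (t : unitInterval) : 1 ≤ sig N t := by
  have h1 : ss t ≤ 1 := max_le (by linarith [t.2.2]) zero_le_one
  have : ((N : ℝ) + 1) * ss t ≤ (N + 1) * 1 := by gcongr
  unfold sig; linarith

noncomputable def arc (N : ℕ) : Path aa bb where
  toFun t := ⟨(rr t * cos (2 * π * sig N t), rr t / sig N t, rr t), by
    refine mem_X' _ _ (le_min (by linarith [t.2.1]) zero_le_one) (min_le_right _ _)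
      (sig_ge N t) ?_
    rcases le_total (2 * (t : ℝ)) 1 with h | h
    · right
      refine ⟨N + 2, ?_⟩
      simp [sig, ss, max_eq_right (sub_nonpos.2 h)]
    · left; exact min_eq_right h⟩
  continuous_toFun := by
    refine Continuous.subtype_mk ?_ _
    have : Continuous (sig N) := by unfold sig; fun_prop
    refine Continuous.prodMk (by fun_prop) (Continuous.prodMk ?_ (by fun_prop))
    exact Continuous.div (by fun_prop) (by fun_prop) fun t => by linarith [sig_ge N t]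
  source' := by apply Subtype.ext; simp [aa_val, rr]
  target' := by
    apply Subtype.ext
    have h1 : sig N 1 = 1 := by simp [sig, ss]; norm_num
    simp [bb, rr, h1]

lemma arc_inj (N : ℕ) : Function.Injective (arc N) := by
  intro s t h
  have h0 := congrArg Subtype.val h
  have h1 : rr s = rr t := congrArg (fun p => p.2.2) h0
  have h2 : rr s / sig N s = rr t / sig N t := congrArg (fun p => p.2.1) h0
  have hs := sig_ge N s
  have ht := sig_ge N t
  apply Subtype.ext
  rcases lt_or_ge (2 * (s : ℝ)) 1 with a | a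
  · unfold rr at h1
    rw [min_eq_left a.le] at h1
    rcases le_total (2 * (t : ℝ)) 1 with b | b
    · rw [min_eq_left b] at h1; linarith
    · rw [min_eq_right b] at h1; linarith
  · have a1 : rr s = 1 := min_eq_right a
    rw [← h1, a1, div_eq_div_iff (by linarith) (by linarith), one_mul, one_mul] at h2
    have b : 1 ≤ 2 * (t : ℝ) := by
      have : rr t ≤ 2 * t := min_le_left _ _
      linarith
    unfold sig ss at h2
    rw [max_eq_left (by linarith), max_eq_left (by linarith)] at h2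
    have hN : (0 : ℝ) < N + 1 := by positivity
    have : ((N : ℝ) + 1) * (s - t) = 0 := by linarith
    rcases mul_eq_zero.1 this with h | h <;> linarith

lemma X_nonneg (p : XX) : 0 ≤ p.1.2.1 ∧ 0 ≤ p.1.2.2 := by
  obtain ⟨_, c, rfl⟩ := p
  have h1 : 0 ≤ rr c.2 := le_min (by linarith [c.2.2.1]) zero_le_one
  have := AA_nonneg c.1
  have := ss_nonneg c.2
  exact ⟨by simp only [FF]; positivity, h1⟩

lemma X_zero (p : XX) (h : p.1.2.2 = 0) : p = aa := by
  obtain ⟨_, c, rfl⟩ := p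
  apply Subtype.ext
  have h' : rr c.2 = 0 := h
  simp [aa_val, FF, h']

lemma X_key (p : XX) (h : p ≠ aa) (σ : ℝ) (hσ : σ * p.1.2.1 = p.1.2.2) :
    p.1.1 = p.1.2.2 * cos (2 * π * σ) ∧ (p.1.2.2 = 1 ∨ ∃ n : ℕ, σ = n) := by
  have h0 : p.1.2.2 ≠ 0 := fun h' => h (X_zero p h')
  obtain ⟨_, c, rfl⟩ := p
  simp only [FF] at *
  have hs := ss_nonneg c.2
  rcases c.1.2 with h1 | ⟨j, h1⟩
  · rw [h1] at hσ
    simp at hσ
    exact absurd hσ.symm h0
  · rw [← h1] at hσ
    have h2 : σ = j + 1 + ss c.2 := by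
      field_simp at hσ
      linarith
    constructor
    · rw [h2, show 2 * π * ((j : ℝ) + 1 + ss c.2) = 2 * π * ss c.2 + ((j + 1 : ℕ) : ℝ) * (2 * π) by
        push_cast; ring, cos_add_nat_mul_two_pi]
    · rcases le_total (2 * (c.2 : ℝ)) 1 with a | a
      · right
        refine ⟨j + 1, ?_⟩
        rw [h2, ss, max_eq_right (by linarith)]; simp
      · left; exact min_eq_right a

lemma X_half (p : XX) (h : p ≠ aa) (k : ℕ) (hσ : (k + 1 / 2) * p.1.2.1 = p.1.2.2) :
    p.1.1 = -1 := by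
  obtain ⟨h1, h2 | ⟨n, h2⟩⟩ := X_key p h _ hσ
  · rw [h1, h2, show 2 * π * ((k : ℝ) + 1 / 2) = π + (k : ℝ) * (2 * π) by ring,
      cos_add_nat_mul_two_pi, cos_pi]; ring
  · exfalso
    have : ((2 * k + 1 : ℕ) : ℝ) = ((2 * n : ℕ) : ℝ) := by push_cast; linarith
    have := Nat.cast_injective this
    omega

lemma X_int (p : XX) (h : p ≠ aa) (k : ℕ) (hσ : k * p.1.2.1 = p.1.2.2) : 0 ≤ p.1.1 := by
  obtain ⟨h1, -⟩ := X_key p h _ hσ
  rw [h1, mul_comm (2 * π), cos_nat_mul_two_pi, mul_one]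
  exact (X_nonneg p).2

lemma many (N : ℕ) (p : Path aa bb) (hp : Function.Injective p) (s0 : unitInterval)
    (hs0 : p s0 ≠ aa) (hs0' : (N + 2 : ℝ) * (p s0).1.2.1 = (p s0).1.2.2)
    (t : Fin (N + 1) → unitInterval) (h0 : t 0 = 0) (h1 : t (Fin.last N) = 1)
    (hd : ∀ i : Fin N, Metric.diam (⇑p '' Set.Icc (t i.castSucc) (t i.succ)) ≤ 1 / 2) : False := by
  have hne : ∀ s, s0 ≤ s → p s ≠ aa := by
    intro s hs h
    have h2 : s = 0 := hp (h.trans p.source.symm)
    rw [h2] at hs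
    have : s0 = 0 := le_antisymm hs s0.2.1
    exact hs0 (this ▸ p.source)
  have key : ∀ (i : ℕ) (hi : i < N + 1) (s : unitInterval), s0 ≤ s → s ≤ t ⟨i, hi⟩ →
      ((N : ℝ) + 2 - i) * (p s).1.2.1 ≤ (p s).1.2.2 := by
    intro i
    induction i with
    | zero =>
      intro hi s hs hs'
      have : t ⟨0, hi⟩ = 0 := h0
      rw [this] at hs'
      have h2 : s = s0 := le_antisymm (hs'.trans s0.2.1) hs
      rw [h2]; simp [hs0']
    | succ i ih =>
      intro hi s hs hs'
      have hiN : i < N := by omega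
      obtain ⟨k, hk⟩ : ∃ k : ℕ, N + 1 = i + k := ⟨N + 1 - i, by omega⟩
      have hk' : (N : ℝ) + 1 = i + k := by exact_mod_cast hk
      have e1 : (N : ℝ) + 2 - ((i + 1 : ℕ) : ℝ) = k := by push_cast; linarith
      have e2 : (N : ℝ) + 2 - (i : ℝ) = k + 1 := by linarith
      rw [e1]
      by_contra hcon
      push Not at hcon
      have hv := fun s => (X_nonneg (p s)).1
      by_cases hst : s ≤ t ⟨i, by omega⟩
      · have := ih (by omega) s hs hst
        rw [e2] at this
        linarith [hv s]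
      push Not at hst
      let w := max s0 (t ⟨i, by omega⟩)
      have hw : w ≤ s := max_le hs hst.le
      have hw2 : ((k : ℝ) + 1) * (p w).1.2.1 ≤ (p w).1.2.2 := by
        rcases le_total s0 (t ⟨i, by omega⟩) with a | a
        · have : w = t ⟨i, by omega⟩ := max_eq_right a
          rw [this, ← e2]; exact ih _ _ a le_rfl
        · have : w = s0 := max_eq_left a
          rw [this, ← hs0']
          have : (k : ℝ) + 1 ≤ N + 2 := by linarith [Nat.cast_nonneg (α := ℝ) i]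
          exact mul_le_mul_of_nonneg_right this (hv s0)
      have ivt : ∀ c : ℝ, k ≤ c → c ≤ k + 1 →
          ∃ x ∈ Icc w s, c * (p x).1.2.1 = (p x).1.2.2 := by
        intro c c1 c2
        have hc : Continuous fun x : unitInterval => c * (p x).1.2.1 - (p x).1.2.2 := by fun_prop
        have := intermediate_value_Icc hw hc.continuousOn
          (show (0 : ℝ) ∈ Icc _ _ from ⟨by nlinarith [hv w], by nlinarith [hv s]⟩)
        obtain ⟨x, hx, hx'⟩ := this
        exact ⟨x, hx, sub_eq_zero.1 hx'⟩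
      obtain ⟨x, hx, hx'⟩ := ivt k le_rfl (by linarith)
      obtain ⟨y, hy, hy'⟩ := ivt (k + 1 / 2) (by linarith) (by linarith)
      have a1 := X_int _ (hne x ((le_max_left _ _).trans hx.1)) k hx'
      have a2 := X_half _ (hne y ((le_max_left _ _).trans hy.1)) k hy'
      have hsub : Icc w s ⊆ Icc (t (Fin.castSucc ⟨i, hiN⟩)) (t (Fin.succ ⟨i, hiN⟩)) :=
        Icc_subset_Icc (le_max_right _ _) hs'
      have a3 := (Metric.dist_le_diam_of_mem Metric.isBounded_of_compactSpace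
        (mem_image_of_mem p (hsub hx)) (mem_image_of_mem p (hsub hy))).trans (hd ⟨i, hiN⟩)
      rw [Subtype.dist_eq, Prod.dist_eq, Real.dist_eq, a2] at a3
      have := (le_abs_self _).trans ((le_max_left _ _).trans a3)
      linarith
  have := key N (by omega) 1 s0.2.2 (by rw [← h1]; rfl)
  rw [p.target] at this
  simp [bb] at this

lemma not_uac : ¬ ∃ P : Set (Path aa bb), (∀ p ∈ P, Function.Injective ⇑p) ∧
    (∀ ε : ℝ, ε > 0 → ∃ n : ℕ, ∀ p ∈ P, ∃ t : Fin (n + 1) → unitInterval,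
      t 0 = 0 ∧ t (Fin.last n) = 1 ∧ StrictMono t ∧
      ∀ i : Fin n, Metric.diam (⇑p '' Set.Icc (t i.castSucc) (t i.succ)) ≤ ε) ∧
    (⋃ p ∈ P, Set.range ⇑p) =
      ⋃ (q : Path aa bb) (_ : Function.Injective ⇑q), Set.range ⇑q := by
  rintro ⟨P, h1, h2, h3⟩
  obtain ⟨N, hN⟩ := h2 (1 / 2) (by norm_num)
  let m : unitInterval := ⟨1 / 2, by norm_num, by norm_num⟩
  have : arc N m ∈ ⋃ p ∈ P, Set.range ⇑p := by
    rw [h3]; exact mem_iUnion₂.2 ⟨arc N, arc_inj N, m, rfl⟩
  obtain ⟨p, hp, s0, hs0⟩ := mem_iUnion₂.1 this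
  obtain ⟨t, t0, t1, -, td⟩ := hN p hp
  have hv : (arc N m).1.2 = (1 / ((N : ℝ) + 2), 1) := by
    show (rr m / sig N m, rr m) = _
    simp [m, rr, sig, ss]
  refine many N p (h1 p hp) s0 ?_ ?_ t t0 t1 td
  · rw [hs0]
    intro h
    rw [h, aa_val] at hv
    simp at hv
  · rw [hs0, hv]
    field_simp

end Pool.Agent.H.MP_94b191_gt
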